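import Pool.Agent.N931.PN.Stm5

/-!
Project PN (helper931), part EX2: two layers, examined blocks.
-/

set_option autoImplicit false

namespace Pool.Agent.N596.PN.EX2

open H974 H12S H389NS H984N H984P H342P Finset
open Pool.Agent.N116.EW
open Pool.Agent.N931.PN
open H342L (cdist Curve)

theorem main : S_EXN → S_NX2 → S_EX2 := by
  rintro hE ⟨C, hC, hN⟩
  refine ⟨max C 1, lt_max_of_lt_left hC, ?_⟩
  intro D hD z B r hz hr hB x hx0 hx1 hxr
  have hρ : ∀ e ∈ D.edges, 0 ≤ (fun _ : Edg => x) e ∧ (fun _ : Edg => x) e ≤ 1 :=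
    fun _ _ => ⟨hx0, hx1.le⟩
  have hr0 : (0 : ℝ) < r := by exact_mod_cast (by omega : 0 < r)
  by_cases hw : (D.bd z).toNat ≤ r
  · have h1 : d1 D r z = r := by unfold d1; exact max_eq_left hw
    rw [h1, div_self hr0.ne', Real.one_rpow, mul_one]
    have ok : ∀ e : Edg, 0 ≤ (hp e : ℝ) ∧ (hp e : ℝ) ≤ 1 := by
      intro e; unfold hp; norm_num
    exact ((P2_le_Pr hρ (EX D B) (EX D B)).trans (Pr_le_one ok D.edges (EX D B))).trans
      (le_max_right _ _)
  · push Not at hw
    have h1 : d1 D r z = (D.bd z).toNat := by unfold d1; exact max_eq_right hw.le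
    rw [h1]
    have h2 : (((D.bd z).toNat : ℕ) : ℤ) ≤ D.bd z := by omega
    have h3 := hN D hD z r (D.bd z).toNat hr hw.le h2 x hx0 hx1 hxr
    have h4 : P2 (fun _ => x) D.edges (EX D B) (EX D B) ≤
        P2 (fun _ => x) D.edges (NX D z r (D.bd z).toNat) (NX D z r (D.bd z).toNat) :=
      D0.P2_mono hρ (fun F hF h => hE D hD F B hF z r _ hr hB h)
        (fun F hF h => hE D hD F B hF z r _ hr hB h)
    refine h4.trans (h3.trans ?_)
    exact mul_le_mul_of_nonneg_right (le_max_left _ _) (by positivity)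

end Pool.Agent.N596.PN.EX2
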